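import Pool.Agent.Helper54.LP.Md

/-!
# LMA, block X1b: coverings by windows and by dyadic intervals
-/

open MeasureTheory Real Set Filter Topology

set_option autoImplicit false

namespace Pool.Agent.Helper54.LMA

open Pool.Agent.Helper22.AE
open Pool.Agent.Helper92.GC
open Pool.Agent.Helper92.DT (m12 m12_nonneg)
open Pool.Agent.Helper75.TW (m20 J20 m20_nonneg m20_cont_coef)
open Pool.Agent.Helper75.LM
open Pool.Agent.Helper92.LA (JJ m12_cont_coef)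
open Pool.Agent.Helper22.LP (Fr fk)

/-- a long interval is covered by windows -/
theorem cov_gen {g : ℝ → ℝ} (hg : Continuous g) (h0 : ∀ r, 0 ≤ g r) {X Y : ℝ}
    (hd : ∀ r₀ : ℝ, ∫ r in Icc (r₀ - Y) (r₀ + Y), g r ≤ 2 * ∫ r in Icc (-(2 * Y)) (2 * Y), g r) (hY : 0 < Y) (hXY : Y ≤ X) :
    ∫ r in Icc (X / 4) (8 * X), g r ≤ 10 * (X / Y) * ∫ r in Icc (-(2 * Y)) (2 * Y), g r := by
  have hX : 0 < X := by linarith
  obtain ⟨I, hI⟩ : ∃ I : ℝ, I = ∫ r in Icc (-(2 * Y)) (2 * Y), g r := ⟨_, rfl⟩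
  have hI0 : 0 ≤ I := by
    rw [hI]
    exact integral_nonneg fun _ => h0 _
  obtain ⟨m, hm⟩ : ∃ m : ℕ, m = ⌈31 * X / (8 * Y)⌉₊ := ⟨_, rfl⟩
  have hm1 : 31 * X / (8 * Y) ≤ m := by
    rw [hm]
    exact Nat.le_ceil _
  have hm2 : (m : ℝ) ≤ 31 * X / (8 * Y) + 1 := by
    rw [hm]
    exact (Nat.ceil_lt_add_one (by positivity)).le
  have hXY1 : 1 ≤ X / Y := by
    rw [le_div_iff₀ hY]
    linarith
  have hm3 : (m : ℝ) ≤ 5 * (X / Y) := by
    have : 31 * X / (8 * Y) = 31 / 8 * (X / Y) := by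
      field_simp
    rw [this] at hm2
    linarith
  have hm4 : 8 * X ≤ X / 4 + 2 * Y * m := by
    rw [div_le_iff₀ (by positivity)] at hm1
    linarith
  have hii : ∀ a b : ℝ, IntervalIntegrable g volume a b := fun a b => hg.intervalIntegrable a b
  have h1 := intervalIntegral.sum_integral_adjacent_intervals (f := g) (μ := volume) (a := fun j : ℕ => X / 4 + 2 * Y * j) (n := m)
    fun k _ => hii _ _
  have h2 : ∀ j : ℕ, ∫ r in (X / 4 + 2 * Y * j)..(X / 4 + 2 * Y * (j + 1 : ℕ)), g r ≤ 2 * I := by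
    intro j
    have h3 := hd (X / 4 + 2 * Y * j + Y)
    have e1 : X / 4 + 2 * Y * j + Y - Y = X / 4 + 2 * Y * j := by ring
    have e2 : X / 4 + 2 * Y * j + Y + Y = X / 4 + 2 * Y * (j + 1 : ℕ) := by
      push_cast
      ring
    rw [e1, e2, integral_Icc_eq_integral_Ioc, ← intervalIntegral.integral_of_le (by push_cast; nlinarith), ← hI] at h3
    exact h3
  have h4 : ∫ r in (X / 4 + 2 * Y * (0 : ℕ))..(X / 4 + 2 * Y * m), g r ≤ m * (2 * I) := by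
    rw [← h1]
    refine (Finset.sum_le_sum fun j _ => h2 j).trans (le_of_eq ?_)
    rw [Finset.sum_const, Finset.card_range, nsmul_eq_mul]
  have e3 : X / 4 + 2 * Y * ((0 : ℕ) : ℝ) = X / 4 := by
    push_cast
    ring
  rw [e3, intervalIntegral.integral_of_le (by nlinarith), ← integral_Icc_eq_integral_Ioc] at h4
  rw [← hI]
  calc ∫ r in Icc (X / 4) (8 * X), g r ≤ ∫ r in Icc (X / 4) (X / 4 + 2 * Y * m), g r := by
        refine setIntegral_mono_set ?_ (Eventually.of_forall h0) (Eventually.of_forall (Icc_subset_Icc le_rfl hm4))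
        exact hg.continuousOn.integrableOn_compact isCompact_Icc
    _ ≤ m * (2 * I) := h4
    _ ≤ 5 * (X / Y) * (2 * I) := mul_le_mul_of_nonneg_right hm3 (by positivity)
    _ = _ := by ring

/-- a symmetric interval is covered by dyadic intervals -/
theorem dya_gen {g : ℝ → ℝ} (hg : Continuous g) (h0 : ∀ r, 0 ≤ g r) (he : ∀ r, g (-r) = g r) {B : ℝ} (hB : ∀ r, g r ≤ B) {i y : ℕ} (hiy : i ≤ y) :
    ∫ r in Icc (-(2 * (2 : ℝ) ^ y)) (2 * 2 ^ y), g r ≤ 2 * (2 ^ i * B + ∑ j ∈ Finset.Icc i y, ∫ r in Icc ((2 : ℝ) ^ j / 4) (8 * 2 ^ j), g r) := by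
  have hii : ∀ a b : ℝ, IntervalIntegrable g volume a b := fun a b => hg.intervalIntegrable a b
  have hy0 : (0 : ℝ) < 2 ^ y := by positivity
  have e1 : ∫ r in Icc (-(2 * (2 : ℝ) ^ y)) (2 * 2 ^ y), g r = 2 * ∫ r in (0 : ℝ)..(2 ^ (y + 1)), g r := by
    rw [integral_Icc_eq_integral_Ioc, ← intervalIntegral.integral_of_le (by linarith),
      ← intervalIntegral.integral_add_adjacent_intervals (hii (-(2 * 2 ^ y)) 0) (hii 0 (2 * 2 ^ y))]
    have e2 : ∫ r in (-(2 * (2 : ℝ) ^ y))..0, g r = ∫ r in (0 : ℝ)..(2 * 2 ^ y), g r := by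
      have := intervalIntegral.integral_comp_neg (f := g) (a := 0) (b := 2 * (2 : ℝ) ^ y)
      rw [neg_zero] at this
      rw [← this]
      simp only [he]
    rw [e2, pow_succ, mul_comm (2 : ℝ) (2 ^ y)]
    ring
  have h1 := intervalIntegral.sum_integral_adjacent_intervals_Ico (f := g) (μ := volume) (a := fun j : ℕ => (2 : ℝ) ^ j) (m := i) (n := y + 1)
    (by omega) fun k _ => hii _ _
  have e3 : ∫ r in (0 : ℝ)..(2 ^ (y + 1)), g r = (∫ r in (0 : ℝ)..(2 ^ i), g r) + ∫ r in ((2 : ℝ) ^ i)..(2 ^ (y + 1)), g r :=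
    (intervalIntegral.integral_add_adjacent_intervals (hii _ _) (hii _ _)).symm
  have h2 : ∫ r in (0 : ℝ)..(2 ^ i), g r ≤ 2 ^ i * B := by
    have h3 : ∫ r in (0 : ℝ)..(2 ^ i), g r ≤ ∫ _r in (0 : ℝ)..(2 ^ i), B :=
      intervalIntegral.integral_mono_on (by positivity) (hii _ _) (by simp) fun r _ => hB r
    rw [intervalIntegral.integral_const, smul_eq_mul, sub_zero] at h3
    exact h3
  have h4 : ∑ k ∈ Finset.Ico i (y + 1), ∫ x in ((2 : ℝ) ^ k)..(2 ^ (k + 1)), g x ≤ ∑ j ∈ Finset.Icc i y, ∫ r in Icc ((2 : ℝ) ^ j / 4) (8 * 2 ^ j), g r := by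
    have e4 : Finset.Ico i (y + 1) = Finset.Icc i y := by
      ext k
      simp only [Finset.mem_Ico, Finset.mem_Icc]
      omega
    rw [e4]
    refine Finset.sum_le_sum fun j _ => ?_
    have hj : (0 : ℝ) < 2 ^ j := by positivity
    rw [intervalIntegral.integral_of_le (by rw [pow_succ]; linarith), ← integral_Icc_eq_integral_Ioc]
    refine setIntegral_mono_set ?_ (Eventually.of_forall h0) (Eventually.of_forall (Icc_subset_Icc (by linarith) (by rw [pow_succ]; linarith)))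
    exact hg.continuousOn.integrableOn_compact isCompact_Icc
  rw [e1, e3, ← h1]
  have := add_le_add h2 h4
  linarith

private theorem card_sqa54 (K : ℕ) : ((sqa K).card : ℝ) ≤ 16 * (K : ℝ) ^ 2 := by
  classical
  have hsub : sqa K ⊆ Finset.Ioo (-(2 * K : ℤ)) (2 * K) ×ˢ Finset.Ioo (-(2 * K : ℤ)) (2 * K) := by
    intro k hk
    unfold sqa at hk
    obtain ⟨-, -, h2, h3⟩ := Finset.mem_filter.1 hk
    rw [abs_lt] at h2 h3
    rw [Finset.mem_product, Finset.mem_Ioo, Finset.mem_Ioo]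
    exact ⟨h2, h3⟩
  have h1 := Finset.card_le_card hsub
  rw [Finset.card_product, Int.card_Ioo] at h1
  have h2 : (2 * (K : ℤ) - -(2 * K) - 1).toNat ≤ 4 * K := by omega
  have h3 : (sqa K).card ≤ (4 * K) * (4 * K) := h1.trans (Nat.mul_le_mul h2 h2)
  have h4 : ((sqa K).card : ℝ) ≤ (((4 * K) * (4 * K) : ℕ) : ℝ) := by exact_mod_cast h3
  push_cast at h4
  linarith

private theorem tp_triv54 (N : ℕ) (x : ℤ × ℤ → ℝ) (c : ℝ × ℝ) : ‖tp (sqa N) (fun k => ee (x k)) c‖ ≤ 16 * (N : ℝ) ^ 2 := by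
  unfold tp
  refine (norm_sum_le _ _).trans ?_
  calc ∑ k ∈ sqa N, ‖ee (x k) * ee (dt k c)‖ ≤ ∑ k ∈ sqa N, (1 : ℝ) :=
        Finset.sum_le_sum fun k _ => by rw [norm_mul, ee_norm, ee_norm, mul_one]
    _ = ((sqa N).card : ℝ) := by rw [Finset.sum_const, nsmul_eq_mul, mul_one]
    _ ≤ _ := card_sqa54 N

private theorem mom_triv54 (N q : ℕ) (x : ℤ × ℤ → ℝ) : ∫ c in Tq, ‖tp (sqa N) (fun k => ee (x k)) c‖ ^ q ≤ (16 * (N : ℝ) ^ 2) ^ q := by
  have hv : (volume Tq).toReal = 1 := by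
    unfold Tq
    rw [Measure.volume_eq_prod, Measure.prod_prod, Real.volume_Icc]
    simp
  have hc : IsCompact Tq := isCompact_Icc.prod isCompact_Icc
  have h1 : ∫ c in Tq, ‖tp (sqa N) (fun k => ee (x k)) c‖ ^ q ≤ ∫ _c in Tq, (16 * (N : ℝ) ^ 2) ^ q := by
    refine setIntegral_mono_on ?_ ?_ hc.measurableSet fun c _ => pow_le_pow_left₀ (norm_nonneg _) (tp_triv54 N x c) q
    · exact (((tp_cont _ _).norm.pow q).continuousOn).integrableOn_compact hc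
    · exact continuousOn_const.integrableOn_compact hc
  rw [setIntegral_const, Measure.real, hv, one_smul] at h1
  exact h1

/-- the trivial bound, order 20 -/
theorem m20_triv (N : ℕ) (x : ℤ × ℤ → ℝ) : m20 (sqa N) (fun k => ee (x k)) ≤ (16 * (N : ℝ) ^ 2) ^ 20 := mom_triv54 N 20 x

/-- the trivial bound, order 12 -/
theorem m12_triv (N : ℕ) (x : ℤ × ℤ → ℝ) : m12 (sqa N) (fun k => ee (x k)) ≤ (16 * (N : ℝ) ^ 2) ^ 12 := mom_triv54 N 12 x

theorem m20_rc (f : Fr) (h : ℝ × ℝ → ℝ) (N : ℕ) : Continuous fun r : ℝ => m20 (sqa N) (fun k => ee (r * h (fk f k))) :=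
  m20_cont_coef (sqa N) (fun (r : ℝ) k => ee (r * h (fk f k))) fun _ _ => ee_cont.comp (continuous_id.mul continuous_const)

theorem m12_rc (f : Fr) (h : ℝ × ℝ → ℝ) (N : ℕ) : Continuous fun r : ℝ => m12 (sqa N) (fun k => ee (r * h (fk f k))) :=
  m12_cont_coef (sqa N) (fun (r : ℝ) k => ee (r * h (fk f k))) fun _ _ => ee_cont.comp (continuous_id.mul continuous_const)

theorem cov20_of (f : Fr) (h : ℝ × ℝ → ℝ) (N : ℕ) {X Y : ℝ}
    (hd : ∀ r₀ : ℝ, ∫ r in Icc (r₀ - Y) (r₀ + Y), m20 (sqa N) (fun k => ee (r * h (fk f k))) ≤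
      2 * ∫ r in Icc (-(2 * Y)) (2 * Y), m20 (sqa N) (fun k => ee (r * h (fk f k)))) (hY : 1 ≤ Y) (hXY : Y ≤ X) :
    J20 f h X N ≤ 10 * (X / Y) * ∫ r in Icc (-(2 * Y)) (2 * Y), m20 (sqa N) (fun k => ee (r * h (fk f k))) :=
  cov_gen (m20_rc f h N) (fun _ => m20_nonneg _ _) hd (by linarith) hXY

theorem cov12_of (f : Fr) (h : ℝ × ℝ → ℝ) (N : ℕ) {X Y : ℝ}
    (hd : ∀ r₀ : ℝ, ∫ r in Icc (r₀ - Y) (r₀ + Y), m12 (sqa N) (fun k => ee (r * h (fk f k))) ≤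
      2 * ∫ r in Icc (-(2 * Y)) (2 * Y), m12 (sqa N) (fun k => ee (r * h (fk f k)))) (hY : 1 ≤ Y) (hXY : Y ≤ X) :
    JJ f h X N ≤ 10 * (X / Y) * ∫ r in Icc (-(2 * Y)) (2 * Y), m12 (sqa N) (fun k => ee (r * h (fk f k))) :=
  cov_gen (m12_rc f h N) (fun _ => m12_nonneg _ _) hd (by linarith) hXY

theorem dya20_of (f : Fr) (h : ℝ × ℝ → ℝ) (N : ℕ)
    (he : ∀ r : ℝ, m20 (sqa N) (fun k => ee (-r * h (fk f k))) = m20 (sqa N) (fun k => ee (r * h (fk f k)))) {i y : ℕ} (hiy : i ≤ y) :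
    ∫ r in Icc (-(2 * (2 : ℝ) ^ y)) (2 * 2 ^ y), m20 (sqa N) (fun k => ee (r * h (fk f k))) ≤
      2 * (2 ^ i * (16 * (N : ℝ) ^ 2) ^ 20 + ∑ j ∈ Finset.Icc i y, J20 f h (2 ^ j) N) :=
  dya_gen (m20_rc f h N) (fun _ => m20_nonneg _ _) he (fun _ => m20_triv N _) hiy

theorem dya12_of (f : Fr) (h : ℝ × ℝ → ℝ) (N : ℕ)
    (he : ∀ r : ℝ, m12 (sqa N) (fun k => ee (-r * h (fk f k))) = m12 (sqa N) (fun k => ee (r * h (fk f k)))) {i y : ℕ} (hiy : i ≤ y) :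
    ∫ r in Icc (-(2 * (2 : ℝ) ^ y)) (2 * 2 ^ y), m12 (sqa N) (fun k => ee (r * h (fk f k))) ≤
      2 * (2 ^ i * (16 * (N : ℝ) ^ 2) ^ 12 + ∑ j ∈ Finset.Icc i y, JJ f h (2 ^ j) N) :=
  dya_gen (m12_rc f h N) (fun _ => m12_nonneg _ _) he (fun _ => m12_triv N _) hiy

end Pool.Agent.Helper54.LMA
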