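import Pool.Agent.Helper54.LMA.Cov
import Pool.Agent.Helper33.LMA.X1

/-!
# LMA, block X1b: the coverings without hypotheses
-/

open MeasureTheory Real Set Filter Topology

set_option autoImplicit false

namespace Pool.Agent.Helper54.LMA

open Pool.Agent.Helper22.AE
open Pool.Agent.Helper92.GC
open Pool.Agent.Helper92.DT (m12)
open Pool.Agent.Helper75.TW (m20 J20)
open Pool.Agent.Helper92.LA (JJ)
open Pool.Agent.Helper22.LP (Fr fk)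

theorem cov20 (f : Fr) (h : ℝ × ℝ → ℝ) (N : ℕ) {X Y : ℝ} (hY : 1 ≤ Y) (hXY : Y ≤ X) :
    J20 f h X N ≤ 10 * (X / Y) * ∫ r in Icc (-(2 * Y)) (2 * Y), m20 (sqa N) (fun k => ee (r * h (fk f k))) :=
  cov20_of f h N (fun r₀ => Helper33.LMA.dom20 f h N r₀ Y (by linarith)) hY hXY

theorem cov12 (f : Fr) (h : ℝ × ℝ → ℝ) (N : ℕ) {X Y : ℝ} (hY : 1 ≤ Y) (hXY : Y ≤ X) :
    JJ f h X N ≤ 10 * (X / Y) * ∫ r in Icc (-(2 * Y)) (2 * Y), m12 (sqa N) (fun k => ee (r * h (fk f k))) :=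
  cov12_of f h N (fun r₀ => Helper33.LMA.dom12 f h N r₀ Y (by linarith)) hY hXY

theorem dya20 (f : Fr) (h : ℝ × ℝ → ℝ) (N : ℕ) {i y : ℕ} (hiy : i ≤ y) :
    ∫ r in Icc (-(2 * (2 : ℝ) ^ y)) (2 * 2 ^ y), m20 (sqa N) (fun k => ee (r * h (fk f k))) ≤
      2 * (2 ^ i * (16 * (N : ℝ) ^ 2) ^ 20 + ∑ j ∈ Finset.Icc i y, J20 f h (2 ^ j) N) :=
  dya20_of f h N (Helper33.LMA.even20 f h N) hiy

theorem dya12 (f : Fr) (h : ℝ × ℝ → ℝ) (N : ℕ) {i y : ℕ} (hiy : i ≤ y) :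
    ∫ r in Icc (-(2 * (2 : ℝ) ^ y)) (2 * 2 ^ y), m12 (sqa N) (fun k => ee (r * h (fk f k))) ≤
      2 * (2 ^ i * (16 * (N : ℝ) ^ 2) ^ 12 + ∑ j ∈ Finset.Icc i y, JJ f h (2 ^ j) N) :=
  dya12_of f h N (Helper33.LMA.even12 f h N) hiy

end Pool.Agent.Helper54.LMA
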